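import Pool.Agent.Helper98.DISC.GoalsD

/-!
Packet DISC PU: polar coordinates at the boundary point 1 of the unit disc.
-/

open MeasureTheory Set Filter Topology
open scoped ENNReal

noncomputable section

namespace Pool.Agent.Helper98.DISC.PkPU

open Real

lemma ball_iff {d b : ℝ} (hd : 0 < d) :
    ((d : ℂ) * (Real.cos b + Real.sin b * Complex.I)) ∈ Metric.ball (1 : ℂ) 1 ↔
      d < 2 * Real.cos b := by
  have h1 : ‖(d : ℂ) * (Real.cos b + Real.sin b * Complex.I) - 1‖ ^ 2 =
      d ^ 2 - 2 * d * Real.cos b + 1 := by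
    rw [← Complex.normSq_eq_norm_sq, Complex.normSq_apply]
    have e1 : ((d : ℂ) * (Real.cos b + Real.sin b * Complex.I) - 1).re = d * Real.cos b - 1 := by
      simp [← Complex.ofReal_cos, ← Complex.ofReal_sin]
    have e2 : ((d : ℂ) * (Real.cos b + Real.sin b * Complex.I) - 1).im = d * Real.sin b := by
      simp [← Complex.ofReal_cos, ← Complex.ofReal_sin]
    rw [e1, e2]
    have := Real.sin_sq_add_cos_sq b
    nlinarith
  rw [Metric.mem_ball, dist_eq_norm]
  have h0 := norm_nonneg ((d : ℂ) * (Real.cos b + Real.sin b * Complex.I) - 1)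
  constructor
  · intro h
    have h2 : ‖(d : ℂ) * (Real.cos b + Real.sin b * Complex.I) - 1‖ ^ 2 < 1 := by nlinarith
    rw [h1] at h2
    by_contra h3
    push Not at h3
    nlinarith
  · intro h
    have h2 : ‖(d : ℂ) * (Real.cos b + Real.sin b * Complex.I) - 1‖ ^ 2 < 1 := by
      rw [h1]
      nlinarith
    by_contra h3
    push Not at h3
    nlinarith

lemma cos_nonpos' {b : ℝ} (hb : b ∈ Ioo (-π) π) (h : b ∉ Ioo (-(π / 2)) (π / 2)) :
    Real.cos b ≤ 0 := by
  rw [mem_Ioo, not_and_or, not_lt, not_lt] at h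
  have hp := Real.pi_pos
  rcases h with h | h
  · rw [← Real.cos_neg]
    exact Real.cos_nonpos_of_pi_div_two_le_of_le (by linarith) (by linarith [hb.1])
  · exact Real.cos_nonpos_of_pi_div_two_le_of_le h (by linarith [hb.2])

theorem thm : S_PU := by
  intro p q f g hf hg
  obtain ⟨F, hF⟩ : ∃ F : ℂ → ℝ≥0∞, ∀ v, F v =
      ENNReal.ofReal (‖v‖ ^ (2 * p) * f (π / 2 + Complex.arg v)) *
      ENNReal.ofReal (‖v‖ ^ (2 * q) * g (π / 2 - Complex.arg v)) := ⟨_, fun _ => rfl⟩
  have e1 : (∫⁻ w in Metric.ball (0 : ℂ) 1,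
      ENNReal.ofReal (‖1 - w‖ ^ (2 * p) * f (at1 w)) *
      ENNReal.ofReal (‖w - 1‖ ^ (2 * q) * g (Real.pi - at1 w))) =
      ∫⁻ v, (Metric.ball (1 : ℂ) 1).indicator F v := by
    rw [← lintegral_indicator Metric.isOpen_ball.measurableSet]
    rw [← lintegral_sub_left_eq_self _ (1 : ℂ)]
    refine lintegral_congr fun v => ?_
    have hm : (1 - v ∈ Metric.ball (0 : ℂ) 1) ↔ v ∈ Metric.ball (1 : ℂ) 1 := by
      rw [Metric.mem_ball, Metric.mem_ball, dist_zero_right, dist_eq_norm, norm_sub_rev]
    by_cases hv : v ∈ Metric.ball (1 : ℂ) 1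
    · rw [indicator_of_mem hv, indicator_of_mem (hm.2 hv), hF]
      have a1 : 1 - (1 - v) = v := by ring
      have a2 : 1 - v - 1 = -v := by ring
      rw [at1, a1, a2, norm_neg]
      congr 4
      ring
    · rw [indicator_of_notMem hv, indicator_of_notMem (fun h => hv (hm.1 h))]
  rw [e1, ← Complex.lintegral_comp_polarCoord_symm]
  obtain ⟨h, hh⟩ : ∃ h : ℝ × ℝ → ℝ≥0∞, ∀ x, h x =
      ENNReal.ofReal (x.1 ^ (2 * p) * f (π / 2 + x.2)) *
      ENNReal.ofReal (x.1 ^ (2 * q) * g (π / 2 - x.2)) * ENNReal.ofReal x.1 := ⟨_, fun _ => rfl⟩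
  obtain ⟨U, hU⟩ : ∃ U : Set (ℝ × ℝ), U =
      {x | x.2 ∈ Ioo (-(π / 2)) (π / 2) ∧ 0 < x.1 ∧ x.1 < 2 * Real.cos x.2} := ⟨_, rfl⟩
  have hUo : IsOpen U := by
    rw [hU]
    refine IsOpen.inter ?_ (IsOpen.inter ?_ ?_)
    · exact isOpen_Ioo.preimage continuous_snd
    · exact isOpen_lt continuous_const continuous_fst
    · exact isOpen_lt continuous_fst (continuous_const.mul (Real.continuous_cos.comp continuous_snd))
  have hUt : U ⊆ polarCoord.target := by
    intro x hx
    rw [hU] at hx
    rw [polarCoord_target]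
    have hp := Real.pi_pos
    exact ⟨hx.2.1, by linarith [hx.1.1], by linarith [hx.1.2]⟩
  have e2 : (∫⁻ x in polarCoord.target, ENNReal.ofReal x.1 •
      (Metric.ball (1 : ℂ) 1).indicator F (Complex.polarCoord.symm x)) =
      ∫⁻ x, U.indicator h x := by
    rw [← lintegral_indicator (by exact polarCoord.open_target.measurableSet)]
    refine lintegral_congr fun x => ?_
    by_cases hx : x ∈ polarCoord.target
    · rw [indicator_of_mem hx]
      have hx' := hx
      rw [polarCoord_target] at hx'
      obtain ⟨hx1, hx2⟩ := hx'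
      rw [mem_Ioi] at hx1
      rw [Complex.polarCoord_symm_apply]
      have harg : Complex.arg ((x.1 : ℂ) * (Real.cos x.2 + Real.sin x.2 * Complex.I)) = x.2 := by
        have := Complex.arg_mul_cos_add_sin_mul_I hx1 (θ := x.2) ⟨hx2.1, hx2.2.le⟩
        simpa using this
      have hnorm : ‖(x.1 : ℂ) * (Real.cos x.2 + Real.sin x.2 * Complex.I)‖ = x.1 := by
        have := Complex.norm_polarCoord_symm x
        rw [Complex.polarCoord_symm_apply, abs_of_pos hx1] at this
        exact this
      by_cases hb : x ∈ U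
      · have hb' := hb
        rw [hU] at hb'
        rw [indicator_of_mem hb, indicator_of_mem ((ball_iff hx1).2 hb'.2.2), hF, harg, hnorm, hh,
          smul_eq_mul, mul_comm]
      · rw [indicator_of_notMem hb, indicator_of_notMem, smul_zero]
        intro h1
        have h2 := (ball_iff hx1).1 h1
        apply hb
        rw [hU]
        refine ⟨?_, hx1, h2⟩
        by_contra h3
        have := cos_nonpos' hx2 h3
        linarith
    · rw [indicator_of_notMem hx, indicator_of_notMem (fun h => hx (hUt h))]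
  rw [e2]
  have hme : AEMeasurable (U.indicator h) volume := by
    rw [aemeasurable_indicator_iff hUo.measurableSet]
    have h1 : ContinuousOn (fun x : ℝ × ℝ => x.1 ^ (2 * p) * f (π / 2 + x.2)) U := by
      refine (continuous_fst.pow _).continuousOn.mul (hf.comp (by fun_prop) ?_)
      intro x hx
      rw [hU] at hx
      exact ⟨by linarith [hx.1.1], by linarith [hx.1.2]⟩
    have h2 : ContinuousOn (fun x : ℝ × ℝ => x.1 ^ (2 * q) * g (π / 2 - x.2)) U := by
      refine (continuous_fst.pow _).continuousOn.mul (hg.comp (by fun_prop) ?_)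
      intro x hx
      rw [hU] at hx
      exact ⟨by linarith [hx.1.2], by linarith [hx.1.1]⟩
    have h3 := ((h1.aemeasurable hUo.measurableSet (μ := volume)).ennreal_ofReal.mul
      (h2.aemeasurable hUo.measurableSet (μ := volume)).ennreal_ofReal).mul
      (measurable_fst.aemeasurable (μ := (volume : Measure (ℝ × ℝ)).restrict U)).ennreal_ofReal
    refine h3.congr (Eventually.of_forall fun x => ?_)
    simp only [Pi.mul_apply]
    rw [hh]
  rw [Measure.volume_eq_prod, lintegral_prod_symm _ (by rw [← Measure.volume_eq_prod]; exact hme)]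
  rw [← lintegral_sub_right_eq_self _ (π / 2), ← lintegral_indicator measurableSet_Ioo]
  refine lintegral_congr fun α => ?_
  by_cases hα : α ∈ Ioo (0 : ℝ) π
  · rw [indicator_of_mem hα, ← lintegral_indicator measurableSet_Ioo]
    refine lintegral_congr fun d => ?_
    have hc : Real.cos (α - π / 2) = Real.sin α := Real.cos_sub_pi_div_two α
    by_cases hd : d ∈ Ioo (0 : ℝ) (2 * Real.sin α)
    · have hm : (d, α - π / 2) ∈ U := by
        rw [hU]
        refine ⟨⟨by simp only; linarith [hα.1], by simp only; linarith [hα.2]⟩, hd.1, ?_⟩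
        simp only
        rw [hc]
        exact hd.2
      rw [indicator_of_mem hm, indicator_of_mem hd, hh]
      simp only
      congr 4
      · congr 1
        ring
      · congr 1
        ring
    · rw [indicator_of_notMem hd, indicator_of_notMem]
      intro hm
      rw [hU] at hm
      refine hd ⟨hm.2.1, ?_⟩
      rw [← hc]
      exact hm.2.2
  · rw [indicator_of_notMem hα]
    refine lintegral_eq_zero_of_ae_eq_zero (Eventually.of_forall fun d => ?_)
    refine indicator_of_notMem ?_ _
    intro hm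
    rw [hU] at hm
    refine hα ⟨?_, ?_⟩
    · have := hm.1.1
      simp only at this
      linarith
    · have := hm.1.2
      simp only at this
      linarith

end Pool.Agent.Helper98.DISC.PkPU
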